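import Pool.Agent.Lib.MP_43d240_ag.PI.Base

/-!
# Project PI, frozen side (S00162): common definitions and the statements of the chapters

Final theorem: `GenStatement → GeoStatement → FieldStatement → EndStatement → S00162`
(proved in `H44/Assembly.lean`).
-/

set_option autoImplicit false
set_option linter.unusedVariables false

open AlgebraicGeometry CategoryTheory
open scoped TensorProduct

namespace Pool.Agent.PI

/-- the tensor product of the three quaternion algebras `(a j, b j)` -/
abbrev Q3 (K : Type) [CommRing K] (a b : Fin 3 → K) : Type :=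
  QuaternionAlgebra K (a 0) 0 (b 0) ⊗[K]
    (QuaternionAlgebra K (a 1) 0 (b 1) ⊗[K] QuaternionAlgebra K (a 2) 0 (b 2))

/-- no zero divisors -/
def NoZD (A : Type) [Mul A] [Zero A] : Prop := ∀ x y : A, x * y = 0 → x = 0 ∨ y = 0

/-- FIELD (helper84 + helper50): the three quaternion algebras of `PI/Base.lean` generate a division
algebra over `k(x,y)(z)`, for every algebraically closed `k` of characteristic `0`. -/
def FieldStatement : Prop :=
  ∀ (k : Type) [Field k] [IsAlgClosed k] [CharZero k], NoZD (Q3 (KK k) (aS k) (bS k))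

/-! ### Forms in four variables (`X 0` is the plane at infinity, `X 1, X 2, X 3` are `x, y, z`) -/

/-- dehomogenization -/
noncomputable def deh {R : Type} [CommRing R] :
    MvPolynomial (Fin 4) R →ₐ[R] MvPolynomial (Fin 3) R :=
  MvPolynomial.aeval ![1, MvPolynomial.X 0, MvPolynomial.X 1, MvPolynomial.X 2]

/-- general position: at every point of `P^3` the gradients of the forms which vanish there are
linearly independent -/
def GP {k : Type} [Field k] {ι : Type} (f : ι → MvPolynomial (Fin 4) k) : Prop :=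
  ∀ P : Fin 4 → k, P ≠ 0 → LinearIndependent k
    (fun i : {i : ι // MvPolynomial.eval P (f i) = 0} => fun l : Fin 4 =>
      MvPolynomial.eval P (MvPolynomial.pderiv l (f i.1)))

open MvPolynomial in
/-- the six sextic forms over `ℤ`: `z, b, x + z, z - 1, y, z - 2` -/
noncomputable def sZ : Fin 6 → MvPolynomial (Fin 4) ℤ :=
  ![X 3 * X 0 ^ 5,
    4 * X 2 ^ 5 * (X 1 - 2 * X 2) - 4 * X 2 ^ 3 * (X 1 - 2 * X 2) ^ 3 + X 2 ^ 4 * X 0 ^ 2
      + 30 * X 2 ^ 2 * (X 1 - 2 * X 2) ^ 2 * X 0 ^ 2 - 27 * (X 1 - 2 * X 2) ^ 4 * X 0 ^ 2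
      + 24 * X 2 * (X 1 - 2 * X 2) * X 0 ^ 4 + 4 * X 0 ^ 6,
    (X 1 + X 3) * X 0 ^ 5,
    (X 3 - X 0) * X 0 ^ 5,
    X 2 * X 0 ^ 5,
    (X 3 - 2 * X 0) * X 0 ^ 5]

/-- index set of the 24 forms: six blocks of four -/
abbrev Idx : Type := Fin 6 × Fin 4

/-- GEN (helper74): 24 forms in general position over an algebraically closed field `k` with a
valuation ring `V`; the four forms of block `j` reduce to `sZ j`. -/
def GenStatement : Prop :=
  ∃ (k : Type) (_ : Field k) (_ : IsAlgClosed k) (_ : CharZero k) (V : ValuationSubring k)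
    (_ : IsAlgClosed (IsLocalRing.ResidueField V)) (_ : CharZero (IsLocalRing.ResidueField V))
    (F : Idx → MvPolynomial (Fin 4) V),
    (∀ i, (F i).IsHomogeneous 6) ∧
    GP (fun i => MvPolynomial.map V.subtype (F i)) ∧
    ∀ i : Idx, MvPolynomial.map (IsLocalRing.residue V) (F i) =
      MvPolynomial.map (Int.castRingHom _) (sZ i.1)

/-- the geometric properties of `X` in the form of S00162 -/
structure IsModel (k : Type) [Field k] (X : Scheme.{0}) [IsIntegral X]
    (f : X ⟶ Spec (CommRingCat.of k)) : Prop where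
  smooth : Smooth f
  proper : IsProper f
  proj : ∃ (n : ℕ), ∀ [GradedAlgebra (MvPolynomial.homogeneousSubmodule (Fin (n + 1)) k)],
      ∃ (i : X ⟶ Proj (MvPolynomial.homogeneousSubmodule (Fin (n + 1)) k)), IsClosedImmersion i
  dim : topologicalKrullDim X = (((3 : ℕ) : ℕ∞) : WithBot ℕ∞)

/-- `a` is a unit times a square at every point of `X` -/
def UnitSq (X : Scheme.{0}) [IsIntegral X] (a : X.functionField) : Prop :=
  ∀ x : X, ∃ (u : (X.presheaf.stalk x)ˣ) (c : X.functionField), c ≠ 0 ∧
    a = algebraMap (X.presheaf.stalk x) X.functionField (u : X.presheaf.stalk x) * c ^ 2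

/-- GEO (geometry of the cover, helper72, 32, 15, 21, 60, 33): the `(Z/2)^18`-cover of `P^3`
`r (j,l) ^ 2 = f (j,l) / f (j,0)`. -/
def GeoStatement : Prop :=
  ∀ (k : Type) [Field k] [IsAlgClosed k] [CharZero k] (f : Idx → MvPolynomial (Fin 4) k),
    (∀ i, (f i).IsHomogeneous 6) → GP f →
    ∃ (X : Scheme.{0}) (_ : IsIntegral X) (p : X ⟶ Spec (CommRingCat.of k)), IsModel k X p ∧
      ∃ (ψ : MvPolynomial (Fin 3) k →+* X.functionField) (r : Idx → X.functionField),
        Function.Injective ψ ∧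
        (∀ j l, r (j, l) ^ 2 * ψ (deh (f (j, 0))) = ψ (deh (f (j, l)))) ∧
        (∀ L : Subfield X.functionField, (∀ a, ψ a ∈ L) → (∀ i, r i ∈ L) → L = ⊤) ∧
        ∀ i, UnitSq X (ψ (deh (f i)))

/-- the literal statement S00162 -/
def FrozenStatement : Prop :=
    ¬ (∀ (k : Type) [Field k] [IsAlgClosed k] (X : Scheme.{0}) [IsIntegral X]
    (f : X ⟶ Spec (CommRingCat.of k)), Smooth f → IsProper f →
    (∃ (n : ℕ), ∀ [GradedAlgebra (MvPolynomial.homogeneousSubmodule (Fin (n + 1)) k)],
      ∃ (i : X ⟶ Proj (MvPolynomial.homogeneousSubmodule (Fin (n + 1)) k)),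
        IsClosedImmersion i) →
    ∀ (d : ℕ), topologicalKrullDim X = ((d : ℕ∞) : WithBot ℕ∞) →
    ∀ (D : Type) [DivisionRing D] [Algebra X.functionField D]
      [Algebra.IsCentral X.functionField D] [FiniteDimensional X.functionField D],
    (∀ x : X, ∃ (A : Type) (_ : Ring A) (_ : Algebra (X.presheaf.stalk x) A),
      IsAzumaya (X.presheaf.stalk x) A ∧
      ∃ m : ℕ, Nonempty (X.functionField ⊗[X.presheaf.stalk x] A ≃ₐ[X.functionField]
        Matrix (Fin m) (Fin m) D)) →
    ∀ n : ℕ, 0 < n →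
    (∃ m : ℕ, Nonempty ((⨂[X.functionField] (_ : Fin n), D) ≃ₐ[X.functionField]
        Matrix (Fin m) (Fin m) X.functionField)) →
    Nat.sqrt (Module.finrank X.functionField D) ∣ n ^ (d - 1))

/-- END (helper15): Azumaya at the stalks and the literal form. -/
def EndStatement : Prop :=
  ∀ (k : Type) [Field k] [IsAlgClosed k] [CharZero k] (X : Scheme.{0}) [IsIntegral X]
    (p : X ⟶ Spec (CommRingCat.of k)), IsModel k X p →
    ∀ a b : Fin 3 → X.functionField, (∀ j, a j ≠ 0) → (∀ j, b j ≠ 0) →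
      (∀ j, UnitSq X (a j)) → (∀ j, UnitSq X (b j)) → NoZD (Q3 X.functionField a b) →
      FrozenStatement

end Pool.Agent.PI
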